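import Pool.Agent.H97.ST.Targets
import Pool.Agent.H97.NF.Pair

/-!
# Module CLO: closeness given the outside
-/

open MeasureTheory ProbabilityTheory Filter Topology
open scoped ENNReal

namespace Pool.Agent.H19.E7

open Pool.Agent.H99.NS Pool.Agent.H22.LPP Pool.Agent.H97.NF Pool.Agent.H97.ST

/-- The supremum over the paths with the property `P`. -/
noncomputable def sS (u v : Site) (P : (ℤ → ℤ) → Prop) (ω : Env) : ℝ :=
  sSup {x | ∃ γ, Conn u v γ ∧ P γ ∧ x = wt ω u.1 v.1 γ}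

theorem sS_true (u v : Site) (ω : Env) : sS u v (fun _ => True) ω = T ω u v := by
  rw [T_def]
  unfold sS
  simp only [true_and]

theorem sS_far (k : ℕ) (ω : Env) (j : ℤ) (i h : ℕ) (m : ℤ) :
    sS (oK k) (eK k) (FarP j i h m) ω = Tfar k ω j i h m := rfl

open Classical in
/-- The grid points of the window. -/
noncomputable def gridF (i h : ℕ) (m : ℤ) : Finset ℤ :=
  (Finset.Icc (m * 16 ^ (5 * h) - (8 * 2 ^ h * 16 ^ (5 * h) + 1))
    (m * 16 ^ (5 * h) + (8 * 2 ^ h * 16 ^ (5 * h) + 1))).image (fun l => 16 ^ (i - 5 * h) * l) ∪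
  (Finset.Icc (m * 16 ^ (5 * h) - (8 * 2 ^ h * 16 ^ (5 * h) + 1))
    (m * 16 ^ (5 * h) + (8 * 2 ^ h * 16 ^ (5 * h) + 1))).image
      (fun l => 16 ^ (i - 5 * h) * l + 1)

theorem gridF_card (i h : ℕ) (m : ℤ) (hh : 1 ≤ h) :
    ((gridF i h m).card : ℝ) ≤ 40 * (2 ^ h * 16 ^ (5 * h)) := by
  have h1 : (gridF i h m).card ≤ 2 * (2 * (8 * 2 ^ h * 16 ^ (5 * h) + 1) + 1) := by
    unfold gridF
    refine (Finset.card_union_le _ _).trans ?_
    have e : (Finset.Icc (m * 16 ^ (5 * h) - (8 * 2 ^ h * 16 ^ (5 * h) + 1))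
        (m * 16 ^ (5 * h) + (8 * 2 ^ h * 16 ^ (5 * h) + 1))).card =
        2 * (8 * 2 ^ h * 16 ^ (5 * h) + 1) + 1 := by
      rw [Int.card_Icc]
      have : (m * 16 ^ (5 * h) + (8 * 2 ^ h * 16 ^ (5 * h) + 1) + 1 -
          (m * 16 ^ (5 * h) - (8 * 2 ^ h * 16 ^ (5 * h) + 1)) : ℤ) =
          ((2 * (8 * 2 ^ h * 16 ^ (5 * h) + 1) + 1 : ℕ) : ℤ) := by
        push_cast
        ring
      rw [this, Int.toNat_natCast]
    have h2 := Finset.card_image_le (s := Finset.Icc (m * 16 ^ (5 * h) -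
      (8 * 2 ^ h * 16 ^ (5 * h) + 1)) (m * 16 ^ (5 * h) + (8 * 2 ^ h * 16 ^ (5 * h) + 1)))
      (f := fun l => 16 ^ (i - 5 * h) * l)
    have h3 := Finset.card_image_le (s := Finset.Icc (m * 16 ^ (5 * h) -
      (8 * 2 ^ h * 16 ^ (5 * h) + 1)) (m * 16 ^ (5 * h) + (8 * 2 ^ h * 16 ^ (5 * h) + 1)))
      (f := fun l => 16 ^ (i - 5 * h) * l + 1)
    rw [e] at h2 h3
    omega
  have h4 : ((gridF i h m).card : ℝ) ≤ ((2 * (2 * (8 * 2 ^ h * 16 ^ (5 * h) + 1) + 1) : ℕ) : ℝ) := by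
    exact_mod_cast h1
  refine h4.trans ?_
  push_cast
  have h5 : (2 : ℝ) ≤ 2 ^ h := by
    calc (2 : ℝ) = 2 ^ 1 := (pow_one _).symm
      _ ≤ 2 ^ h := pow_le_pow_right₀ (by norm_num) hh
  have h6 : (1 : ℝ) ≤ 16 ^ (5 * h) := one_le_pow₀ (by norm_num)
  nlinarith [mul_le_mul h5 h6 (by norm_num) (by positivity)]

theorem mem_gridF {i h : ℕ} {m v : ℤ} (hh : 5 * h ≤ i) (hg : Grid (i - 5 * h) v)
    (hv : |v - m * 16 ^ i| ≤ Rm h i) : v ∈ gridF i h m := by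
  classical
  have e : (16 : ℤ) ^ i = 16 ^ (i - 5 * h) * 16 ^ (5 * h) := by
    rw [← pow_add]
    congr 1
    omega
  obtain ⟨a, ha⟩ : ∃ a : ℤ, a = 16 ^ (i - 5 * h) := ⟨_, rfl⟩
  obtain ⟨b, hb⟩ : ∃ b : ℤ, b = 16 ^ (5 * h) := ⟨_, rfl⟩
  obtain ⟨c, hc⟩ : ∃ c : ℤ, c = 2 ^ h := ⟨_, rfl⟩
  have ha1 : 1 ≤ a := by rw [ha]; exact one_le_pow₀ (by norm_num)
  have hb1 : 1 ≤ b := by rw [hb]; exact one_le_pow₀ (by norm_num)
  unfold Rm at hv
  unfold Grid at hg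
  unfold gridF
  rw [e] at hv
  rw [← ha, ← hb, ← hc] at hv
  rw [← ha] at hg
  rw [← ha, ← hb, ← hc]
  rw [abs_le] at hv
  rw [Finset.mem_union, Finset.mem_image, Finset.mem_image]
  rcases hg with ⟨l, hl⟩ | ⟨l, hl⟩
  · left
    refine ⟨l, ?_, hl.symm⟩
    rw [Finset.mem_Icc]
    rw [hl] at hv
    constructor
    · have h1 : a * (m * b - 8 * c * b) ≤ a * l := by nlinarith only [hv.1, hv]
      have := le_of_mul_le_mul_left h1 (by omega)
      omega
    · have h1 : a * l ≤ a * (m * b + 8 * c * b) := by nlinarith [hv.2]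
      have := le_of_mul_le_mul_left h1 (by omega)
      omega
  · right
    refine ⟨l, ?_, by omega⟩
    rw [Finset.mem_Icc]
    have hl' : v = a * l + 1 := by omega
    rw [hl'] at hv
    constructor
    · have h1 : a * (m * b - (8 * c * b + 1)) ≤ a * l := by nlinarith only [hv.1, ha1, hv]
      exact le_of_mul_le_mul_left h1 (by omega)
    · have h1 : a * l ≤ a * (m * b + (8 * c * b + 1)) := by nlinarith [hv.2]
      exact le_of_mul_le_mul_left h1 (by omega)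

theorem gi_sq {i h : ℕ} (hi : 1 ≤ i) : gi i h ^ 2 = 16 ^ i / (16 * 16 ^ h) := by
  obtain ⟨i, rfl⟩ : ∃ i', i = i' + 1 := ⟨i - 1, by omega⟩
  unfold gi
  rw [Nat.add_sub_cancel, div_pow, ← pow_mul, ← pow_mul, mul_comm i 2, mul_comm h 2, pow_mul,
    pow_mul, pow_succ]
  norm_num
  field_simp
  rw [pow_succ]

theorem gi_pos (i h : ℕ) : 0 < gi i h := by
  unfold gi
  positivity

theorem pf_CLO (hCHB : T_CHB) : T_CLO := by
  intro q hq0 hq1
  obtain ⟨C, hC, hcheb⟩ := hCHB q hq0 hq1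
  refine ⟨164352 * C, by positivity, ?_⟩
  intro k i h j m hh1 hhi hik hmid S out ρ r t₁ t₂ hρ ht hlev
  have hr : 0 ≤ r := (hρ (0, 0)).1.trans (hρ (0, 0)).2.1
  obtain ⟨M, hM⟩ : ∃ M : ℝ, M = r * ((t₂ - t₁ : ℤ) : ℝ) := ⟨_, rfl⟩
  have hM0 : 0 ≤ M := by
    rw [hM]
    refine mul_nonneg hr ?_
    have : (0 : ℤ) ≤ t₂ - t₁ := by omega
    exact_mod_cast this
  have hg := gi_pos i h
  obtain ⟨g, hgd⟩ : ∃ g, g = gi i h := ⟨_, rfl⟩
  rw [← hgd] at hg
  obtain ⟨D, hD⟩ : ∃ D : Site → Site → ((ℤ → ℤ) → Prop) → PEnv → ℝ, D = fun u v P E =>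
      |sS u v P (eA (glue S (diag out) E)) - sS u v P (eB (glue S (diag out) E))| := ⟨_, rfl⟩
  have hb : ∀ (u v : Site) (P : (ℤ → ℤ) → Prop), (oK k).1 ≤ u.1 → v.1 ≤ (eK k).1 →
      (∀ γ γ' : ℤ → ℤ, (∀ t, u.1 ≤ t → t ≤ v.1 → γ t = γ' t) → (P γ ↔ P γ')) → ∀ g' : ℝ, 0 < g' →
      PN q ρ {E | g' < D u v P E} ≤ ENNReal.ofReal (C * M / g' ^ 2) := by
    intro u v P hu hv hP g' hg'
    rw [hD, hM]
    exact hcheb S out u v P hP ρ r t₁ t₂ hρ ht
      (fun x hx h1 h2 => hlev x hx (lt_of_le_of_lt hu h1) (h2.trans hv)) g' hg'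
  -- levels
  have hp1 : (1 : ℤ) ≤ 64 ^ (k - 1) := one_le_pow₀ (by norm_num)
  have hp2 : (64 : ℤ) ^ (i - 1) ≤ 64 ^ (k - 1) := pow_le_pow_right₀ (by norm_num) (by omega)
  have hp4 : (0 : ℤ) < 64 ^ (i - 1) := by positivity
  have hp5 : 0 < hv (i - 5 * h) := by
    unfold hv
    positivity
  have hj := abs_le.1 hmid
  have ho : (oK k).1 = -(32 * 64 ^ (k - 1)) := rfl
  have he : (eK k).1 = 32 * 64 ^ (k - 1) := rfl
  classical
  obtain ⟨Fl, hFl⟩ : ∃ Fl : Finset (ℤ × ℤ), Fl = ({j - hv (i - 5 * h),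
    j - 64 ^ (i - 1) - hv (i - 5 * h)} : Finset ℤ) ×ˢ gridF i h m := ⟨_, rfl⟩
  obtain ⟨Fu, hFu⟩ : ∃ Fu : Finset (ℤ × ℤ), Fu = ({j + hv (i - 5 * h),
    j + 64 ^ (i - 1) + hv (i - 5 * h)} : Finset ℤ) ×ˢ gridF i h m := ⟨_, rfl⟩
  have hcard : ∀ a b : ℤ, (((({a, b} : Finset ℤ) ×ˢ gridF i h m).card : ℕ) : ℝ) ≤
      80 * (2 ^ h * 16 ^ (5 * h)) := by
    intro a b
    rw [Finset.card_product]
    push_cast
    have h1 : ((({a, b} : Finset ℤ).card : ℕ) : ℝ) ≤ 2 := by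
      exact_mod_cast Finset.card_le_two
    have h2 := gridF_card i h m hh1
    have h3 : (0 : ℝ) ≤ (gridF i h m).card := Nat.cast_nonneg _
    nlinarith only [h2, h1]
  have hcover : {E | ¬ Close k (eA (glue S (diag out) E)) (eB (glue S (diag out) E)) j i h m} ⊆
      (({E | g / 4 < D (oK k) (eK k) (fun _ => True) E} ∪
        {E | g / 4 < D (oK k) (eK k) (FarP j i h m) E}) ∪
      ⋃ p ∈ Fl, {E | g / 8 < D (oK k) p (fun _ => True) E}) ∪
      ⋃ p ∈ Fu, {E | g / 8 < D p (eK k) (fun _ => True) E} := by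
    intro E hE
    by_contra hcon
    rw [Set.mem_union, Set.mem_union, Set.mem_union, not_or, not_or, not_or] at hcon
    obtain ⟨⟨⟨h1, h2⟩, h3⟩, h4⟩ := hcon
    apply hE
    rw [hD] at h1 h2 h3 h4
    rw [hgd] at h1 h2 h3 h4
    refine ⟨?_, ?_, ?_, ?_⟩
    · rw [← sS_true, ← sS_true]
      exact not_lt.1 h1
    · rw [← sS_far, ← sS_far]
      exact not_lt.1 h2
    · intro s hs v hv1 hv2
      rw [← sS_true, ← sS_true]
      by_contra hlt
      rw [not_le] at hlt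
      apply h3
      refine Set.mem_iUnion₂.2 ⟨(s, v), ?_, hlt⟩
      rw [hFl, Finset.mem_product, Finset.mem_insert, Finset.mem_singleton]
      exact ⟨hs, mem_gridF (by omega) hv1 hv2⟩
    · intro s hs v hv1 hv2
      rw [← sS_true, ← sS_true]
      by_contra hlt
      rw [not_le] at hlt
      apply h4
      refine Set.mem_iUnion₂.2 ⟨(s, v), ?_, hlt⟩
      rw [hFu, Finset.mem_product, Finset.mem_insert, Finset.mem_singleton]
      exact ⟨hs, mem_gridF (by omega) hv1 hv2⟩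
  have hsum : ∀ (F : Finset (ℤ × ℤ)) (A : ℤ × ℤ → Set PEnv),
      (F.card : ℝ) ≤ 80 * (2 ^ h * 16 ^ (5 * h)) →
      (∀ p ∈ F, PN q ρ (A p) ≤ ENNReal.ofReal (C * M / (g / 8) ^ 2)) →
      PN q ρ (⋃ p ∈ F, A p) ≤
        ENNReal.ofReal (80 * (2 ^ h * 16 ^ (5 * h)) * (C * M / (g / 8) ^ 2)) := by
    intro F A hF hA
    refine (measure_biUnion_finset_le _ _).trans ((Finset.sum_le_sum hA).trans ?_)
    rw [Finset.sum_const, nsmul_eq_mul, ← ENNReal.ofReal_natCast,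
      ← ENNReal.ofReal_mul (Nat.cast_nonneg _)]
    refine ENNReal.ofReal_le_ofReal (mul_le_mul_of_nonneg_right hF (by positivity))
  have hb1 := hb (oK k) (eK k) (fun _ => True) le_rfl le_rfl (fun _ _ _ => Iff.rfl) (g / 4)
    (by linarith)
  have hb2 := hb (oK k) (eK k) (FarP j i h m) le_rfl le_rfl (fun γ γ' hγ => by
    unfold FarP
    rw [hγ j (by rw [ho]; omega) (by rw [he]; omega)]) (g / 4) (by linarith)
  have hb3 := hsum Fl (fun p => {E | g / 8 < D (oK k) p (fun _ => True) E})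
    (by rw [hFl]; exact hcard _ _) (by
      intro p hp
      rw [hFl, Finset.mem_product, Finset.mem_insert, Finset.mem_singleton] at hp
      refine hb (oK k) p _ le_rfl ?_ (fun _ _ _ => Iff.rfl) _ (by linarith)
      rw [he]
      rcases hp.1 with h1 | h1 <;> rw [h1] <;> omega)
  have hb4 := hsum Fu (fun p => {E | g / 8 < D p (eK k) (fun _ => True) E})
    (by rw [hFu]; exact hcard _ _) (by
      intro p hp
      rw [hFu, Finset.mem_product, Finset.mem_insert, Finset.mem_singleton] at hp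
      refine hb p (eK k) _ ?_ le_rfl (fun _ _ _ => Iff.rfl) _ (by linarith)
      rw [ho]
      rcases hp.1 with h1 | h1 <;> rw [h1] <;> omega)
  refine (measure_mono hcover).trans ?_
  refine ((measure_union_le _ _).trans (add_le_add ((measure_union_le _ _).trans
    (add_le_add ((measure_union_le _ _).trans (add_le_add hb1 hb2)) hb3)) hb4)).trans ?_
  rw [← ENNReal.ofReal_add (by positivity) (by positivity),
    ← ENNReal.ofReal_add (by positivity) (by positivity),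
    ← ENNReal.ofReal_add (by positivity) (by positivity)]
  refine ENNReal.ofReal_le_ofReal ?_
  rw [← hM]
  have hg2 : g ^ 2 = 16 ^ i / (16 * 16 ^ h) := by rw [hgd]; exact gi_sq (by omega)
  have e1 : C * M / (g / 4) ^ 2 = 256 * 16 ^ h * (C * M / 16 ^ i) := by
    rw [div_pow, hg2]
    have : (16 : ℝ) ^ i ≠ 0 := by positivity
    have : (16 : ℝ) ^ h ≠ 0 := by positivity
    field_simp
    ring
  have e2 : C * M / (g / 8) ^ 2 = 1024 * 16 ^ h * (C * M / 16 ^ i) := by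
    rw [div_pow, hg2]
    have : (16 : ℝ) ^ i ≠ 0 := by positivity
    have : (16 : ℝ) ^ h ≠ 0 := by positivity
    field_simp
    ring
  rw [e1, e2]
  have e3 : 164352 * C * M * 16 ^ (8 * h) / 16 ^ i = 164352 * 16 ^ (8 * h) * (C * M / 16 ^ i) := by
    ring
  rw [e3]
  have hX : 0 ≤ C * M / 16 ^ i := by positivity
  obtain ⟨X, hXd⟩ : ∃ X, X = C * M / 16 ^ i := ⟨_, rfl⟩
  rw [← hXd] at hX ⊢
  have e4 : (16 : ℝ) ^ (8 * h) = 16 ^ (5 * h) * 16 ^ h * 16 ^ h * 16 ^ h := by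
    rw [← pow_add, ← pow_add, ← pow_add]
    congr 1
    ring
  rw [e4]
  obtain ⟨y, hy⟩ : ∃ y : ℝ, y = 16 ^ h := ⟨_, rfl⟩
  obtain ⟨z, hz⟩ : ∃ z : ℝ, z = 16 ^ (5 * h) := ⟨_, rfl⟩
  obtain ⟨w, hw⟩ : ∃ w : ℝ, w = 2 ^ h := ⟨_, rfl⟩
  rw [← hy, ← hz, ← hw]
  have hy1 : 1 ≤ y := by rw [hy]; exact one_le_pow₀ (by norm_num)
  have hz1 : 1 ≤ z := by rw [hz]; exact one_le_pow₀ (by norm_num)
  have hw0 : 0 ≤ w := by rw [hw]; positivity
  have hwy : w ≤ y := by rw [hw, hy]; exact pow_le_pow_left₀ (by norm_num) (by norm_num) h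
  have h1 : 256 * y + 256 * y + 80 * (w * z) * (1024 * y) + 80 * (w * z) * (1024 * y) ≤
      164352 * (z * y * y * y) := by
    have h2 : w * z * y ≤ z * y * y := by nlinarith only [mul_nonneg (by linarith : (0:ℝ) ≤ z) (by linarith : (0:ℝ) ≤ y), hq0, hq1, hwy, hz1, hy1]
    have h3 : z * y * y ≤ z * y * y * y := by
      have : 0 ≤ z * y * y := by positivity
      nlinarith only [hq0, hq1, hy1, this]
    have h4 : y ≤ z * y * y * y := by
      have h5 : 1 * y ≤ z * y := mul_le_mul_of_nonneg_right hz1 (by linarith)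
      have h6 : z * y ≤ z * y * y := by
        have : 0 ≤ z * y := by positivity
        nlinarith only [hy1, hq0, hq1, h5]
      linarith
    nlinarith only [h2, h3, h4]
  nlinarith only [mul_le_mul_of_nonneg_right h1 hX, h1, hX]

end Pool.Agent.H19.E7
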