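import Pool.Agent.H97.ST.Targets
import Pool.Agent.H97.NF.Pair

/-!
# Module TEL: telescoping over nested boxes
-/

open MeasureTheory ProbabilityTheory Filter Topology
open scoped ENNReal

namespace Pool.Agent.H19.E7

open Pool.Agent.H99.NS Pool.Agent.H22.LPP Pool.Agent.H97.NF Pool.Agent.H97.ST

/-- The environment using the second one on `U`. -/
noncomputable def mix (U : Set Site) (E : PEnv) : Env := glue U (eA E) (eB E)

/-- The pair map. -/
noncomputable def pm (U V : Set Site) (E : PEnv) (x : Site) : ℕ × ℕ :=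
  (glue U (eA E) (eB E) x, glue V (eA E) (eB E) x)

theorem eA_pm (U V : Set Site) (E : PEnv) : eA (pm U V E) = mix U E := rfl
theorem eB_pm (U V : Set Site) (E : PEnv) : eB (pm U V E) = mix V E := rfl

theorem mix_univ (E : PEnv) : mix Set.univ E = eB E := by
  funext x
  exact glue_of_mem _ _ (Set.mem_univ x)

theorem mix_eq {U : Set Site} {E : PEnv} (h : ∀ y ∈ U, (E y).1 = (E y).2) : mix U E = eA E := by
  funext x
  by_cases hx : x ∈ U
  · unfold mix
    rw [glue_of_mem _ _ hx]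
    exact (h x hx).symm
  · exact glue_of_notMem _ _ hx

theorem pf_TEL (hW : T_WIN) (hL : T_LAW) : T_TEL := by
  intro q r hr0 hr1 L hLm j i₀ i₁ R hi hR
  obtain ⟨hW1, hW2, -, hW4, -⟩ := hW
  obtain ⟨μ, hμ⟩ : ∃ μ, μ = PN q (fun _ => r) := ⟨_, rfl⟩
  -- the sets
  have hset : ∀ S : Set ℤ, MeasurableSet {E : PEnv | L (eA E) ∈ S ∧ L (eB E) ≠ L (eA E)} := by
    intro S
    have h1 : Measurable fun E : PEnv => L (eA E) := hLm.comp measurable_eA
    have h2 : Measurable fun E : PEnv => L (eB E) := hLm.comp measurable_eB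
    have e : {E : PEnv | L (eA E) ∈ S ∧ L (eB E) ≠ L (eA E)} =
        (fun E : PEnv => L (eA E)) ⁻¹' S ∩ {E : PEnv | L (eB E) = L (eA E)}ᶜ := rfl
    rw [e]
    exact (h1 S.to_countable.measurableSet).inter (measurableSet_eq_fun h2 h1).compl
  have hlaw : ∀ (U V : Set Site) (S : Set ℤ), U ⊆ V →
      μ {E | L (mix U E) ∈ S ∧ L (mix V E) ≠ L (mix U E)} =
        PN q (rhoS r (V \ U)) {E | L (eA E) ∈ S ∧ L (eB E) ≠ L (eA E)} := by
    intro U V S hUV
    have h := (hL q r U V hr0 hr1 hUV).measure_preimage (hset S).nullMeasurableSet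
    rw [← hμ] at h
    exact h
  have key : {E : PEnv | L (eA E) ≠ L (eB E)} ⊆
      ((⋃ m : ℤ, {E | L (eA E) ∈ Win i₀ m ∧ ∃ y ∈ BoxW j i₀ m (R i₀), (E y).1 ≠ (E y).2}) ∪
      (⋃ i ∈ Finset.Ico i₀ i₁, ⋃ m : ℤ, {E | L (mix (BoxW j i m (R i)) E) ∈ Win i m ∧
        L (mix (BoxW j (i + 1) (m / 16) (R (i + 1))) E) ≠ L (mix (BoxW j i m (R i)) E)})) ∪
      (⋃ m : ℤ, {E | L (mix (BoxW j i₁ m (R i₁)) E) ∈ Win i₁ m ∧
        L (mix Set.univ E) ≠ L (mix (BoxW j i₁ m (R i₁)) E)}) := by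
    intro E hE
    rw [Set.mem_ofPred_eq] at hE
    by_contra hcon
    rw [Set.mem_union, Set.mem_union, not_or, not_or] at hcon
    obtain ⟨⟨h1, h2⟩, h3⟩ := hcon
    have hx : ∀ i, L (eA E) ∈ Win i (L (eA E) / 16 ^ i) := fun i => (hW1 i _ _).2 rfl
    have h1' : ∀ y ∈ BoxW j i₀ (L (eA E) / 16 ^ i₀) (R i₀), (E y).1 = (E y).2 := by
      intro y hy
      by_contra hne
      exact h1 (Set.mem_iUnion.2 ⟨_, hx i₀, y, hy, hne⟩)
    have h2' : ∀ i, i₀ ≤ i → i ≤ i₁ →
        L (mix (BoxW j i (L (eA E) / 16 ^ i) (R i)) E) = L (eA E) := by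
      intro i hi0
      induction i, hi0 using Nat.le_induction with
      | base => intro _; rw [mix_eq h1']
      | succ i hi0 ih =>
        intro hi1
        have ih' := ih (by omega)
        by_contra hne
        apply h2
        refine Set.mem_iUnion₂.2 ⟨i, Finset.mem_Ico.2 ⟨hi0, by omega⟩, Set.mem_iUnion.2
          ⟨L (eA E) / 16 ^ i, ?_, ?_⟩⟩
        · rw [ih']; exact hx i
        · rw [ih', hW2]; exact hne
    apply h3
    refine Set.mem_iUnion.2 ⟨L (eA E) / 16 ^ i₁, ?_, ?_⟩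
    · rw [h2' i₁ hi le_rfl]; exact hx i₁
    · rw [h2' i₁ hi le_rfl, mix_univ]; exact fun h => hE h.symm
  rw [← hμ]
  refine (measure_mono key).trans ((measure_union_le _ _).trans (add_le_add ((measure_union_le _ _).trans
    (add_le_add (measure_iUnion_le _) ?_)) ?_))
  · refine (measure_biUnion_finset_le _ _).trans (Finset.sum_le_sum fun i _ => ?_)
    refine (measure_iUnion_le _).trans (ENNReal.tsum_le_tsum fun m => ?_)
    rw [hlaw _ _ _ (hW4 j i m _ _ (hR i))]
  · refine (measure_iUnion_le _).trans (ENNReal.tsum_le_tsum fun m => ?_)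
    rw [hlaw _ _ _ (Set.subset_univ _), Set.compl_eq_univ_sdiff]

end Pool.Agent.H19.E7
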